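import Pool.Agent.U503.SPR.Stm
import Pool.Agent.U324.HP.GEO

/-!
# Project SPR, package DSJ (helper312 for helper503): the balls of the grid
-/

set_option autoImplicit false

open Set Filter Topology Function
open Pool.Agent.Y453.HB Pool.Agent.R773.HN Pool.Agent.N235.DH

namespace Pool.Agent.U312.SPR

open Pool.Agent.U503.SPR (gv)
open Pool.Agent.U324.HP (co co_left co_right abs_co_le Q_le)

theorem fst_le {n : ℕ} (x : E n) (i : Fin n) : |x.1 i| ≤ nm x := by
  rw [← co_left]
  exact abs_co_le _ _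

theorem snd_le {n : ℕ} (x : E n) (i : Fin n) : |x.2 i| ≤ nm x := by
  rw [← co_right]
  exact abs_co_le _ _

theorem sep {ρ x q : ℝ} {a a' : ℕ} (hρ : 0 < ρ) (hne : a ≠ a') (h : |x - (q + 3 * ρ * a)| ≤ ρ)
    (h' : |x - (q + 3 * ρ * a')| ≤ ρ) : False := by
  rw [abs_le] at h h'
  rcases lt_or_gt_of_ne hne with h1 | h1
  · have h2 : (a : ℝ) + 1 ≤ a' := by exact_mod_cast h1
    nlinarith [h.1, h.2, h'.1, h'.2]
  · have h2 : (a' : ℝ) + 1 ≤ a := by exact_mod_cast h1
    nlinarith [h.1, h.2, h'.1, h'.2]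

theorem t_DSJ : Pool.Agent.U503.SPR.S_DSJ := by
  intro n L q ρ hn hρ
  refine ⟨fun a b a' b' hne => ?_, fun a b hab x hx => ?_⟩
  · rw [Set.disjoint_left]
    intro x hx hx'
    have h1 : nm (x - (q + (3 * ρ) • gv n a b)) ≤ ρ := hx
    have h2 : nm (x - (q + (3 * ρ) • gv n a' b')) ≤ ρ := hx'
    have h3 : ∃ i, a i ≠ a' i ∨ b i ≠ b' i := by
      by_contra hcon
      push Not at hcon
      apply hne
      rw [Prod.mk.injEq]
      exact ⟨funext fun i => (hcon i).1, funext fun i => (hcon i).2⟩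
    obtain ⟨i, h4 | h4⟩ := h3
    · have h5 := (fst_le _ i).trans h1
      have h6 := (fst_le _ i).trans h2
      exact sep hρ h4 h5 h6
    · have h5 := (snd_le _ i).trans h1
      have h6 := (snd_le _ i).trans h2
      exact sep hρ h4 h5 h6
  · have hL : 1 ≤ L := by
      have := (hab ⟨0, hn⟩).1
      omega
    have h1 : nm (x - (q + (3 * ρ) • gv n a b)) ≤ ρ := hx
    have hn' : (1 : ℝ) ≤ n := by exact_mod_cast hn
    have hL' : (1 : ℝ) ≤ L := by exact_mod_cast hL
    have h2 : nm (gv n a b) ≤ 2 * n * L := by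
      have h3 : Q (gv n a b) ≤ n * (2 * (L : ℝ) ^ 2) := by
        apply Q_le
        intro c hc
        unfold co
        split_ifs with h4 h5
        · have h6 : (a ⟨c, h4⟩ : ℝ) ≤ L := by exact_mod_cast (hab _).1.le
          show |((a ⟨c, h4⟩ : ℕ) : ℝ)| ≤ L
          rw [abs_of_nonneg (Nat.cast_nonneg _)]
          exact h6
        · have h6 : (b ⟨c - n, h5⟩ : ℝ) ≤ L := by exact_mod_cast (hab _).2.le
          show |((b ⟨c - n, h5⟩ : ℕ) : ℝ)| ≤ L
          rw [abs_of_nonneg (Nat.cast_nonneg _)]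
          exact h6
        · rw [abs_zero]
          linarith
      unfold nm
      rw [Real.sqrt_le_left (by positivity)]
      refine h3.trans ?_
      nlinarith [sq_nonneg (L : ℝ), mul_nonneg (sub_nonneg.2 hn') (sq_nonneg (L : ℝ))]
    show nm (x - q) ≤ 12 * n * L * ρ
    have h4 : nm (x - q) ≤ nm (x - (q + (3 * ρ) • gv n a b)) + nm ((3 * ρ) • gv n a b) := by
      have h5 := nm_add (x - (q + (3 * ρ) • gv n a b)) ((3 * ρ) • gv n a b)
      have h6 : x - (q + (3 * ρ) • gv n a b) + (3 * ρ) • gv n a b = x - q := by abel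
      rwa [h6] at h5
    have h7 : nm ((3 * ρ) • gv n a b) ≤ 3 * ρ * (2 * n * L) := by
      rw [nm_smul, abs_of_pos (by positivity)]
      exact mul_le_mul_of_nonneg_left h2 (by positivity)
    have h8 : ρ ≤ n * L * ρ := by
      have : (1 : ℝ) ≤ n * L := by nlinarith
      nlinarith
    nlinarith [h1, h4, h7, h8]

end Pool.Agent.U312.SPR
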